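import Mathlib
import Pool.Agent.Helper669.Dom2

/-!
# The strong polarized relation fails at a singular dominating number
-/

namespace Pool.Agent.Results.MP_10964f_lc.SingularD

open Cardinal Pool.Agent.Helper669.Dom Pool.Agent.Helper669.Dom2

/-- If the dominating number `𝔡` is singular (its cofinality is smaller than `𝔡`), then the strong
polarized relation fails for `𝔡` and `ω`. -/
theorem result (h : dNum.ord.cof < dNum) : ¬ StrongPolarized dNum ℵ₀ :=
  negative (splits_of_no_base fun _ _ hU hb => not_lt.1 fun hlt =>
    absurd (cof_dNum hU hb hlt) (not_le.2 h))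

end Pool.Agent.Results.MP_10964f_lc.SingularD
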